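import Pool.Agent.helper20.SOL.Spec

/-! Row sol:LX2 (MP_cad530_co). -/

set_option autoImplicit false

namespace Pool.Agent.SOL

open Pool.Agent.helper54.SOG Finset

theorem LX2_swp_eq {n : ℕ} (y : Vec n) (a b : Fin n) (h : y a = y b) : swp a b y = y := by
  funext j
  unfold swp
  by_cases ja : j = a
  · subst ja
    rw [Equiv.swap_apply_left, h]
  · by_cases jb : j = b
    · subst jb
      rw [Equiv.swap_apply_right, h]
    · rw [Equiv.swap_apply_of_ne_of_ne ja jb]

theorem LX2_swp_neg {n : ℕ} (y : Vec n) (a b : Fin n) (hab : a ≠ b) (h : y a = -y b) :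
    swp a b y = flp a (flp b y) := by
  funext j
  unfold swp flp
  by_cases ja : j = a
  · subst ja
    rw [Equiv.swap_apply_left, if_pos rfl, if_neg hab, h, neg_neg]
  · by_cases jb : j = b
    · subst jb
      rw [Equiv.swap_apply_right, if_neg ja, if_pos rfl, h]
    · rw [Equiv.swap_apply_of_ne_of_ne ja jb, if_neg ja, if_neg jb]

theorem LX2 (hCNT : CNT_stmt) (hLX1 : LX1_stmt) : LX2_stmt := by
  obtain ⟨_, _, _, hf, hs, _, _, _⟩ := hCNT
  intro n t s M _ f hadd hmix x hx y hy hxy i a b ha hb hi hab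
  have hA := (hLX1 n t s M f hadd x hx y hy hxy).2.1 i hi
  have hswx := hs n t s x a b hx
  have hswy := hs n t s y a b hy
  have hswd : swp a b x - swp a b y ∈ TD n t s := hs n t s (x - y) a b hxy
  have hi' : (swp a b x - swp a b y) i = 0 := by
    show x (Equiv.swap a b i) - y (Equiv.swap a b i) = 0
    rw [Equiv.swap_apply_of_ne_of_ne (Ne.symm ha) (Ne.symm hb)]
    exact hi
  have hB := (hLX1 n t s M f hadd _ hswx _ hswy hswd).2.1 i hi'
  rw [hB, hA]
  have hstep : ∀ u ∈ TD n t s, ∀ j, j ≠ i →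
      f (flp j u) - f (flp i (flp j u)) = f u - f (flp i u) := by
    intro u hu j hj
    have h := hmix u hu i j (Ne.symm hj)
    have h2 : (f u - f (flp i u)) - (f (flp j u) - f (flp i (flp j u))) = 0 := by
      rw [← h]; abel
    exact (sub_eq_zero.1 h2).symm
  by_cases hab' : a = b
  · rw [LX2_swp_eq y a b (by rw [hab'])]
  · rcases abs_eq_abs.1 hab with h | h
    · rw [LX2_swp_eq y a b h]
    · rw [LX2_swp_neg y a b hab' h, hstep _ (hf n t s y b hy) a ha, hstep _ hy b hb]

end Pool.Agent.SOL
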